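import Mathlib

/-!
# Failure of eventual uniqueness of the compressing polynomial for every `K ≥ 3`

For `m = 5 ^ (k + 1)` the numbers `2 cos (2 π a / m)`, `a` coprime to `5`, form a set `C` of
`N = 2 * 5 ^ k` distinct reals which is a single cycle both of `X ^ 2 - 2` (which sends
`2 cos t` to `2 cos (2 t)`) and of `X ^ 3 - 3 X` (which sends `2 cos t` to `2 cos (3 t)`),
because `2` and `3` both generate the units modulo `m`.  Removing the point `2 cos (2 π / m)`
gives a set of `N - 1` reals which is compressed by both polynomials and is not mapped into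
itself by either of them.
-/

namespace Pool.Agent.Results.MP_29b953_an.NoEventualUniqueness

open Polynomial

/-- `f` is a compressing function for the finite set `S` of `N = S.card` distinct reals:
there is `x₀ ∈ S` with `S = {x₀, f x₀, f (f x₀), …, f^[N-1] x₀}`. -/
def IsCompressing (f : ℝ[X]) (S : Finset ℝ) : Prop :=
  ∃ x₀ ∈ S, (S : Set ℝ) = {y : ℝ | ∃ i : ℕ, i < S.card ∧ y = (fun t : ℝ => f.eval t)^[i] x₀}

/-- the point `2 cos (2 π a / m)` -/
noncomputable def pt (m : ℕ) (a : ℤ) : ℝ := 2 * Real.cos (2 * Real.pi * a / m)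

lemma pt_eq_iff {m : ℕ} (hm : 0 < m) (a b : ℤ) :
    pt m a = pt m b ↔ (m : ℤ) ∣ a - b ∨ (m : ℤ) ∣ a + b := by
  have hm' : (m : ℝ) ≠ 0 := by positivity
  have hpi : Real.pi ≠ 0 := Real.pi_ne_zero
  unfold pt
  rw [mul_right_inj' (two_ne_zero), Real.cos_eq_cos_iff]
  constructor
  · rintro ⟨k, hk | hk⟩
    · left
      have h1 : (b : ℝ) = m * k + a := by
        field_simp at hk
        linarith
      have h2 : b = m * k + a := by exact_mod_cast h1
      exact ⟨-k, by rw [h2]; ring⟩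
    · right
      have h1 : (b : ℝ) = m * k - a := by
        field_simp at hk
        linarith
      have h2 : b = m * k - a := by exact_mod_cast h1
      exact ⟨k, by rw [h2]; ring⟩
  · rintro (⟨k, hk⟩ | ⟨k, hk⟩)
    · refine ⟨-k, Or.inl ?_⟩
      have h2 : (a : ℝ) - b = m * k := by exact_mod_cast hk
      have h3 : (b : ℝ) = a - m * k := by linarith
      rw [h3]
      push_cast
      field_simp
      ring
    · refine ⟨k, Or.inr ?_⟩
      have h2 : (a : ℝ) + b = m * k := by exact_mod_cast hk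
      have h3 : (b : ℝ) = m * k - a := by linarith
      rw [h3]
      field_simp

lemma eval_two (m : ℕ) (a : ℤ) : (X ^ 2 - 2 : ℝ[X]).eval (pt m a) = pt m (2 * a) := by
  unfold pt
  have h : 2 * Real.pi * ((2 * a : ℤ) : ℝ) / m = 2 * (2 * Real.pi * a / m) := by
    push_cast; ring
  rw [h, Real.cos_two_mul]
  simp only [eval_sub, eval_pow, eval_X, eval_ofNat]
  ring

lemma eval_three (m : ℕ) (a : ℤ) : (X ^ 3 - 3 * X : ℝ[X]).eval (pt m a) = pt m (3 * a) := by
  unfold pt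
  have h : 2 * Real.pi * ((3 * a : ℤ) : ℝ) / m = 3 * (2 * Real.pi * a / m) := by
    push_cast; ring
  rw [h, Real.cos_three_mul]
  simp only [eval_sub, eval_pow, eval_X, eval_ofNat, eval_mul]
  ring

/-- the lifting-the-exponent input -/
lemma dvd_of_dvd_pow_sub_one {b : ℤ} (hb : emultiplicity (5 : ℤ) (b - 1) = 1)
    (hb5 : ¬ (5 : ℤ) ∣ b) (k l : ℕ) (h : (5 : ℤ) ^ (k + 1) ∣ b ^ l - 1) : 5 ^ k ∣ l := by
  have h5 : (5 : ℤ) ∣ b - 1 := by
    have : (5 : ℤ) ^ 1 ∣ b - 1 := pow_dvd_of_le_emultiplicity (by rw [hb]; simp)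
    simpa using this
  have key := Int.emultiplicity_pow_sub_pow (p := 5) Nat.prime_five (by decide)
    (x := b) (y := 1) (by simpa using h5) (by simpa using hb5) l
  rw [one_pow] at key
  have h1 : ((k + 1 : ℕ) : ℕ∞) ≤ emultiplicity ((5 : ℕ) : ℤ) (b ^ l - 1) :=
    le_emultiplicity_of_pow_dvd (by exact_mod_cast h)
  rw [key] at h1
  have hb' : emultiplicity ((5 : ℕ) : ℤ) (b - 1) = 1 := by exact_mod_cast hb
  rw [hb'] at h1
  have h2 : (k : ℕ∞) ≤ emultiplicity 5 l := by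
    have h3 : (1 : ℕ∞) + (k : ℕ∞) ≤ 1 + emultiplicity 5 l := by
      have : ((k + 1 : ℕ) : ℕ∞) = 1 + (k : ℕ∞) := by push_cast; ring
      rwa [this] at h1
    exact (ENat.add_le_add_iff_left ENat.one_ne_top).mp h3
  exact pow_dvd_of_le_emultiplicity h2

/-- the arithmetic properties of the multiplier `q` (`q = 2` or `q = 3`) which are used -/
structure Good (q : ℤ) : Prop where
  sq : (5 : ℤ) ∣ q ^ 2 + 1
  four : emultiplicity (5 : ℤ) (q ^ 4 - 1) = 1

lemma good_two : Good 2 := by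
  refine ⟨by norm_num, ?_⟩
  have : ((1 : ℕ) : ℕ∞) = 1 := rfl
  rw [← this, emultiplicity_eq_coe]
  norm_num

lemma good_three : Good 3 := by
  refine ⟨by norm_num, ?_⟩
  have : ((1 : ℕ) : ℕ∞) = 1 := rfl
  rw [← this, emultiplicity_eq_coe]
  norm_num

lemma Good.not_dvd {q : ℤ} (hq : Good q) : ¬ (5 : ℤ) ∣ q := by
  intro h
  have h1 : (5 : ℤ) ∣ q ^ 2 := Dvd.dvd.pow h (by norm_num)
  have h2 : (5 : ℤ) ∣ 1 := by
    have := dvd_sub hq.sq h1
    rwa [add_sub_cancel_left] at this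
  norm_num at h2

lemma Good.coprime {q : ℤ} (hq : Good q) : IsCoprime (5 : ℤ) q := by
  have h5 : Prime (5 : ℤ) := by norm_num
  exact (Prime.coprime_iff_not_dvd h5).mpr hq.not_dvd

/-- `q ^ n ≡ ± 1` only for `n` at least `2 * 5 ^ k`, in squared form -/
lemma Good.le {q : ℤ} (hq : Good q) {k n : ℕ} (hn : 0 < n)
    (h : (5 : ℤ) ^ (k + 1) ∣ (q ^ 2) ^ n - 1) : 2 * 5 ^ k ≤ n := by
  have h5 : (5 : ℤ) ∣ (q ^ 2) ^ n - 1 := dvd_trans (dvd_pow_self _ (by omega)) h
  have hmod : (q ^ 2) ≡ -1 [ZMOD 5] := by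
    rw [Int.modEq_iff_dvd]
    have := hq.sq
    have h2 : (-1 - q ^ 2 : ℤ) = -(q ^ 2 + 1) := by ring
    rw [h2]
    exact (dvd_neg).mpr this
  have hpow : (q ^ 2) ^ n ≡ (-1) ^ n [ZMOD 5] := hmod.pow n
  have heven : Even n := by
    by_contra hodd
    rw [Nat.not_even_iff_odd] at hodd
    rw [hodd.neg_one_pow] at hpow
    have h3 : (5 : ℤ) ∣ -1 - (q ^ 2) ^ n := (Int.modEq_iff_dvd).mp hpow
    have h4 := dvd_add h3 h5
    norm_num at h4
  obtain ⟨l, hl⟩ := heven
  have h6 : (5 : ℤ) ^ (k + 1) ∣ (q ^ 4) ^ l - 1 := by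
    have : (q ^ 4) ^ l = (q ^ 2) ^ n := by
      rw [hl, ← pow_mul, ← pow_mul]; ring
    rwa [this]
  have h7 : ¬ (5 : ℤ) ∣ q ^ 4 := by
    intro h8
    have h5 : Prime (5 : ℤ) := by norm_num
    exact hq.not_dvd (h5.dvd_of_dvd_pow h8)
  have h8 : 5 ^ k ∣ l := dvd_of_dvd_pow_sub_one hq.four h7 k l h6
  have h9 : 5 ^ k ≤ l := Nat.le_of_dvd (by omega) h8
  omega

/-- distinctness along the orbit -/
lemma Good.ne {q : ℤ} (hq : Good q) {k i j : ℕ} (hij : i < j) (hj : j - i < 2 * 5 ^ k) :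
    pt (5 ^ (k + 1)) (q ^ i) ≠ pt (5 ^ (k + 1)) (q ^ j) := by
  intro h
  rw [pt_eq_iff (by positivity)] at h
  have h1 : (((5 ^ (k + 1) : ℕ)) : ℤ) ∣ (q ^ i - q ^ j) * (q ^ i + q ^ j) := by
    rcases h with h | h
    · exact Dvd.dvd.mul_right h _
    · exact Dvd.dvd.mul_left h _
  obtain ⟨n, rfl⟩ := Nat.exists_eq_add_of_lt hij
  have h2 : (q ^ i - q ^ (i + n + 1)) * (q ^ i + q ^ (i + n + 1))
      = -(q ^ (2 * i) * ((q ^ 2) ^ (n + 1) - 1)) := by
    ring
  rw [h2, dvd_neg] at h1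
  push_cast at h1
  have h3 : IsCoprime ((5 : ℤ) ^ (k + 1)) (q ^ (2 * i)) := (hq.coprime).pow
  have h4 : (5 : ℤ) ^ (k + 1) ∣ (q ^ 2) ^ (n + 1) - 1 := h3.dvd_of_dvd_mul_left h1
  have h5 := hq.le (by omega) h4
  omega

/-- the set of all `2 cos (2 π a / 5 ^ (k + 1))` with `a` prime to `5` -/
noncomputable def cyc (k : ℕ) : Finset ℝ := by
  classical
  exact ((Finset.range (5 ^ (k + 1))).filter (fun a => (5 ^ (k + 1)).Coprime a)).image
    (fun a : ℕ => pt (5 ^ (k + 1)) (a : ℤ))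

lemma card_cyc_le (k : ℕ) : (cyc k).card ≤ 2 * 5 ^ k := by
  classical
  set m : ℕ := 5 ^ (k + 1) with hm
  have hmpos : 0 < m := by positivity
  have hodd : Odd m := by
    rw [hm]; exact Odd.pow (by decide)
  set A : Finset ℕ := (Finset.range m).filter (fun a => m.Coprime a) with hA
  have hcardA : A.card = 4 * 5 ^ k := by
    have h1 : A.card = Nat.totient m := by
      rw [Nat.totient_eq_card_coprime]
    rw [h1, hm, Nat.totient_prime_pow_succ Nat.prime_five]
    ring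
  have hfib : ∀ y ∈ A.image (fun a : ℕ => pt m (a : ℤ)),
      2 ≤ (A.filter (fun a : ℕ => pt m (a : ℤ) = y)).card := by
    intro y hy
    obtain ⟨a, haA, rfl⟩ := Finset.mem_image.mp hy
    have ha := haA
    rw [hA, Finset.mem_filter, Finset.mem_range] at ha
    obtain ⟨ham, hco⟩ := ha
    have ha0 : a ≠ 0 := by
      rintro rfl
      rw [Nat.coprime_zero_right] at hco
      have : 1 < m := by
        rw [hm]; exact Nat.one_lt_pow (by omega) (by norm_num)
      omega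
    have hb : m - a ∈ A := by
      rw [hA, Finset.mem_filter, Finset.mem_range]
      refine ⟨by omega, ?_⟩
      exact (Nat.coprime_self_sub_right ham.le).mpr hco
    have hne : a ≠ m - a := by
      obtain ⟨t, ht⟩ := hodd
      omega
    have hsub : ({a, m - a} : Finset ℕ) ⊆ A.filter (fun b : ℕ => pt m (b : ℤ) = pt m (a : ℤ)) := by
      intro b hb'
      rw [Finset.mem_insert, Finset.mem_singleton] at hb'
      rcases hb' with rfl | rfl
      · exact Finset.mem_filter.mpr ⟨haA, rfl⟩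
      · refine Finset.mem_filter.mpr ⟨hb, ?_⟩
        rw [pt_eq_iff hmpos]
        right
        rw [Nat.cast_sub ham.le]
        simp
    calc 2 = ({a, m - a} : Finset ℕ).card := (Finset.card_pair hne).symm
      _ ≤ _ := Finset.card_le_card hsub
  have h2 := Finset.mul_card_image_le_card (f := fun a : ℕ => pt m (a : ℤ)) A 2 hfib
  have h3 : cyc k = A.image (fun a : ℕ => pt m (a : ℤ)) := by
    unfold cyc
    rfl
  rw [h3]
  omega

lemma Good.mem_cyc {q : ℤ} (hq : Good q) (k i : ℕ) : pt (5 ^ (k + 1)) (q ^ i) ∈ cyc k := by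
  classical
  set m : ℕ := 5 ^ (k + 1) with hm
  have hmpos : 0 < m := by positivity
  have hmz : (0 : ℤ) < (m : ℤ) := by exact_mod_cast hmpos
  set b : ℤ := q ^ i % (m : ℤ) with hb
  have hb0 : 0 ≤ b := Int.emod_nonneg _ hmz.ne'
  have hbm : b < m := Int.emod_lt_of_pos _ hmz
  have hcast : ((b.toNat : ℕ) : ℤ) = b := Int.toNat_of_nonneg hb0
  have hdiv : (m : ℤ) ∣ q ^ i - b := by
    rw [hb]; exact Int.dvd_self_sub_emod
  have h1 : pt m (q ^ i) = pt m ((b.toNat : ℕ) : ℤ) := by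
    rw [pt_eq_iff hmpos, hcast]
    left; exact hdiv
  have hcop : IsCoprime (m : ℤ) (q ^ i) := by
    rw [hm]; push_cast
    exact (hq.coprime).pow
  have hcopb : IsCoprime (m : ℤ) b := by
    obtain ⟨t, ht⟩ := hdiv
    have : b = q ^ i + (m : ℤ) * (-t) := by linarith
    rw [this]
    exact (IsCoprime.add_mul_left_right_iff).mpr hcop
  have hcopn : m.Coprime b.toNat := by
    rw [← Nat.isCoprime_iff_coprime, hcast]
    exact hcopb
  rw [h1]
  unfold cyc
  refine Finset.mem_image.mpr ⟨b.toNat, Finset.mem_filter.mpr ⟨Finset.mem_range.mpr ?_, hcopn⟩, rfl⟩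
  rw [← hm]
  omega

/-- the orbit of `q` in `cyc k` -/
lemma Good.image_eq {q : ℤ} (hq : Good q) (k : ℕ) :
    (Finset.range (2 * 5 ^ k)).image (fun i => pt (5 ^ (k + 1)) (q ^ i)) = cyc k ∧
      (cyc k).card = 2 * 5 ^ k := by
  classical
  have hinj : Set.InjOn (fun i => pt (5 ^ (k + 1)) (q ^ i)) (Finset.range (2 * 5 ^ k) : Set ℕ) := by
    intro i hi j hj hij
    rw [Finset.mem_coe, Finset.mem_range] at hi hj
    rcases lt_trichotomy i j with h | h | h
    · exact absurd hij (hq.ne h (by omega))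
    · exact h
    · exact absurd hij.symm (hq.ne h (by omega))
  have hcard : ((Finset.range (2 * 5 ^ k)).image (fun i => pt (5 ^ (k + 1)) (q ^ i))).card
      = 2 * 5 ^ k := by
    rw [Finset.card_image_of_injOn hinj, Finset.card_range]
  have hsub : (Finset.range (2 * 5 ^ k)).image (fun i => pt (5 ^ (k + 1)) (q ^ i)) ⊆ cyc k := by
    intro y hy
    obtain ⟨i, -, rfl⟩ := Finset.mem_image.mp hy
    exact hq.mem_cyc k i
  have heq := Finset.eq_of_subset_of_card_le hsub (by rw [hcard]; exact card_cyc_le k)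
  exact ⟨heq, by rw [← heq, hcard]⟩

lemma iterate_pt {f : ℝ[X]} {q : ℤ} {m : ℕ} (hf : ∀ a : ℤ, f.eval (pt m a) = pt m (q * a))
    (i : ℕ) (a : ℤ) : (fun t : ℝ => f.eval t)^[i] (pt m a) = pt m (q ^ i * a) := by
  induction i with
  | zero => simp
  | succ i ih =>
    rw [Function.iterate_succ_apply', ih, hf]
    congr 1
    ring

open Classical in
/-- the set `cyc k` minus the point `2 cos (2 π / 5 ^ (k + 1))` -/
noncomputable def D (k : ℕ) : Finset ℝ := (cyc k).erase (pt (5 ^ (k + 1)) 1)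

lemma Good.card_D {q : ℤ} (hq : Good q) (k : ℕ) : (D k).card = 2 * 5 ^ k - 1 := by
  classical
  unfold D
  have h1 : pt (5 ^ (k + 1)) 1 ∈ cyc k := by
    have := hq.mem_cyc k 0
    simpa using this
  rw [Finset.card_erase_of_mem h1, (hq.image_eq k).2]

lemma Good.mem_D_iff {q : ℤ} (hq : Good q) (k : ℕ) (y : ℝ) :
    y ∈ D k ↔ ∃ i : ℕ, i < 2 * 5 ^ k - 1 ∧ y = pt (5 ^ (k + 1)) (q ^ (i + 1)) := by
  classical
  unfold D
  rw [Finset.mem_erase, ← (hq.image_eq k).1, Finset.mem_image]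
  constructor
  · rintro ⟨hne, i, hi, rfl⟩
    rw [Finset.mem_range] at hi
    cases i with
    | zero => simp at hne
    | succ i => exact ⟨i, by omega, rfl⟩
  · rintro ⟨i, hi, rfl⟩
    refine ⟨?_, i + 1, Finset.mem_range.mpr (by omega), rfl⟩
    have := (hq.ne (k := k) (i := 0) (j := i + 1) (by omega) (by omega)).symm
    simpa using this

lemma Good.closing {q : ℤ} (hq : Good q) (k : ℕ) :
    pt (5 ^ (k + 1)) (q ^ (2 * 5 ^ k)) = pt (5 ^ (k + 1)) 1 := by
  classical
  have h1 := hq.mem_cyc k (2 * 5 ^ k)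
  rw [← (hq.image_eq k).1, Finset.mem_image] at h1
  obtain ⟨i, hi, h2⟩ := h1
  rw [Finset.mem_range] at hi
  cases i with
  | zero => rw [← h2]; simp
  | succ i => exact absurd h2 (hq.ne hi (by omega))

lemma Good.isCompressing {q : ℤ} (hq : Good q) (k : ℕ) {f : ℝ[X]}
    (hf : ∀ a : ℤ, f.eval (pt (5 ^ (k + 1)) a) = pt (5 ^ (k + 1)) (q * a)) :
    IsCompressing f (D k) := by
  have hpos : 0 < 5 ^ k := by positivity
  refine ⟨pt (5 ^ (k + 1)) q, ?_, ?_⟩
  · rw [hq.mem_D_iff]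
    exact ⟨0, by omega, by simp⟩
  · ext y
    rw [Finset.mem_coe, hq.mem_D_iff, Set.mem_ofPred_eq, hq.card_D]
    constructor
    · rintro ⟨i, hi, rfl⟩
      refine ⟨i, hi, ?_⟩
      rw [iterate_pt hf, pow_succ q i]
    · rintro ⟨i, hi, rfl⟩
      refine ⟨i, hi, ?_⟩
      rw [iterate_pt hf, pow_succ q i]

lemma Good.not_invariant {q : ℤ} (hq : Good q) (k : ℕ) {f : ℝ[X]}
    (hf : ∀ a : ℤ, f.eval (pt (5 ^ (k + 1)) a) = pt (5 ^ (k + 1)) (q * a)) :
    ∃ s ∈ D k, f.eval s ∉ D k := by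
  classical
  have hpos : 0 < 5 ^ k := by positivity
  refine ⟨pt (5 ^ (k + 1)) (q ^ (2 * 5 ^ k - 1)), ?_, ?_⟩
  · rw [hq.mem_D_iff]
    exact ⟨2 * 5 ^ k - 2, by omega, by congr 2; omega⟩
  · rw [hf, ← pow_succ', show 2 * 5 ^ k - 1 + 1 = 2 * 5 ^ k by omega, hq.closing]
    unfold D
    simp

lemma natDegree_two : (X ^ 2 - 2 : ℝ[X]).natDegree = 2 := by
  have : (X ^ 2 - 2 : ℝ[X]) = X ^ 2 - Polynomial.C 2 := by rw [Polynomial.C_ofNat]
  rw [this]
  exact natDegree_X_pow_sub_C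

lemma natDegree_three : (X ^ 3 - 3 * X : ℝ[X]).natDegree = 3 := by
  have : (X ^ 3 - 3 * X : ℝ[X]) = X ^ 3 - Polynomial.C 3 * X := by rw [Polynomial.C_ofNat]
  rw [this]
  compute_degree!

/-- For every `K ≥ 3` there are arbitrarily large finite sets `S` of reals with two different
compressing polynomials `f ≠ g` of degree between `2` and `K`; moreover neither of the two
polynomials maps `S` into itself. -/
theorem result (K : ℕ) (hK : 3 ≤ K) (M : ℕ) :
    ∃ S : Finset ℝ, M ≤ S.card ∧ ∃ f g : ℝ[X], f ≠ g ∧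
      (2 ≤ f.natDegree ∧ f.natDegree ≤ K) ∧ (2 ≤ g.natDegree ∧ g.natDegree ≤ K) ∧
      IsCompressing f S ∧ IsCompressing g S ∧
      (∃ s ∈ S, f.eval s ∉ S) ∧ (∃ s ∈ S, g.eval s ∉ S) := by
  refine ⟨D M, ?_, X ^ 2 - 2, X ^ 3 - 3 * X, ?_, ?_, ?_, ?_, ?_, ?_, ?_⟩
  · rw [good_two.card_D]
    have : M < 5 ^ M := Nat.lt_pow_self (by norm_num)
    omega
  · intro h
    have := congrArg natDegree h
    rw [natDegree_two, natDegree_three] at this
    omega
  · rw [natDegree_two]; omega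
  · rw [natDegree_three]; omega
  · exact good_two.isCompressing M (eval_two _)
  · exact good_three.isCompressing M (eval_three _)
  · exact good_two.not_invariant M (eval_two _)
  · exact good_three.not_invariant M (eval_three _)

end Pool.Agent.Results.MP_29b953_an.NoEventualUniqueness
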